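import Pool.Agent.Helper89.KN.Spec

open MeasureTheory Set Filter Topology
open scoped ENNReal

noncomputable section

namespace KN
namespace H91

theorem measurableSet_Sq' (n : ℝ) : MeasurableSet (Sq n) := by
  have h1 : Sq n = Complex.measurableEquivRealProd ⁻¹'
      (Icc 0 (Real.sqrt n) ×ˢ Icc 0 (Real.sqrt n)) := by
    ext z
    simp [Sq, SqL, Complex.measurableEquivRealProd, and_assoc]
    tauto
  rw [h1]
  exact Complex.measurableEquivRealProd.measurable (measurableSet_Icc.prod measurableSet_Icc)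

theorem PP_mono' (hB : S_BASIC) (n : ℝ) (Q Q' : Multiset ℂ → Prop)
    (h : ∀ ω, (∀ z ∈ ω, z ∈ Sq n) → Q ω → Q' ω) : PP (Sq n) Q ≤ PP (Sq n) Q' := by
  unfold PP
  refine hB.1 _ _ _ (measurableSet_Sq' n) (fun m x hx hq => h _ ?_ hq)
  intro z hz
  simp only [conf, Multiset.mem_map, Finset.mem_val, Finset.mem_univ, true_and] at hz
  obtain ⟨i, rfl⟩ := hz
  exact hx i

theorem PP_or (hB : S_BASIC) (n : ℝ) (Q Q' : Multiset ℂ → Prop) :
    PP (Sq n) (fun ω => Q ω ∨ Q' ω) ≤ PP (Sq n) Q + PP (Sq n) Q' :=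
  hB.2.1 _ _ _

theorem PP_false (S : Set ℂ) (Q : Multiset ℂ → Prop) (h : ∀ ω, ¬ Q ω) : PP S Q = 0 := by
  unfold PP prob
  simp [h]

theorem PP_and (S : Set ℂ) (p : Prop) (Q : Multiset ℂ → Prop) (B : ℝ≥0∞)
    (h : p → PP S Q ≤ B) : PP S (fun ω => p ∧ Q ω) ≤ B := by
  by_cases hp : p
  · simpa [hp] using h hp
  · rw [PP_false]
    · exact zero_le
    · intro ω hω
      exact hp hω.1

theorem PP_ex (hB : S_BASIC) (S : Set ℂ) {ι : Type} (I : Finset ι) (Q : ι → Multiset ℂ → Prop)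
    (B : ℝ≥0∞) (K : ℕ) (hK : I.card ≤ K) (h : ∀ i ∈ I, PP S (Q i) ≤ B) :
    PP S (fun ω => ∃ i ∈ I, Q i ω) ≤ K * B := by
  refine le_trans (hB.2.2.1 S ι I (fun i _ x => Q i (conf x))) ?_
  refine le_trans (Finset.sum_le_card_nsmul I _ B h) ?_
  rw [nsmul_eq_mul]
  gcongr

theorem card_nb (N : ℕ) (c₀ : ℤ × ℤ) : (nb N c₀).card ≤ (2 * N + 1) ^ 2 := by
  unfold nb
  rw [Finset.card_product, Int.card_Icc, Int.card_Icc, sq]
  apply Nat.mul_le_mul <;> omega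

theorem card_pnb (N : ℕ) (c₀ : ℤ × ℤ) : (nb N c₀).powerset.card ≤ 2 ^ ((2 * N + 1) ^ 2) := by
  rw [Finset.card_powerset]
  exact Nat.pow_le_pow_right (by norm_num) (card_nb N c₀)

theorem card_gridI (n ε : ℝ) (hn : 1 ≤ n) (hε : 1 ≤ ε) :
    ((gridI n ε).card : ℝ≥0∞) ≤ ENNReal.ofReal (4 * n) := by
  have hs : 1 ≤ Real.sqrt n := by
    rw [Real.one_le_sqrt]; exact hn
  have h1 : ((gridI n ε).card : ℝ) ≤ 4 * n := by
    unfold gridI
    rw [Finset.card_product, Int.card_Icc]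
    have h0 : (0 : ℤ) ≤ ⌊Real.sqrt n / ε⌋ := Int.floor_nonneg.2 (by positivity)
    have h2 : (((⌊Real.sqrt n / ε⌋ + 1 - 0).toNat : ℕ) : ℝ) ≤ 2 * Real.sqrt n := by
      have h3 : ((⌊Real.sqrt n / ε⌋ + 1 - 0).toNat : ℤ) = ⌊Real.sqrt n / ε⌋ + 1 := by
        rw [Int.toNat_of_nonneg (by omega)]; ring
      have h4 : (((⌊Real.sqrt n / ε⌋ + 1 - 0).toNat : ℕ) : ℝ) = (⌊Real.sqrt n / ε⌋ : ℝ) + 1 := by
        exact_mod_cast h3
      rw [h4]
      have h5 : (⌊Real.sqrt n / ε⌋ : ℝ) ≤ Real.sqrt n / ε := Int.floor_le _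
      have h6 : Real.sqrt n / ε ≤ Real.sqrt n := div_le_self (by linarith) hε
      linarith
    push_cast
    calc _ ≤ (2 * Real.sqrt n) * (2 * Real.sqrt n) := by
          gcongr
      _ = 4 * (Real.sqrt n * Real.sqrt n) := by ring
      _ = 4 * n := by rw [Real.mul_self_sqrt (by linarith)]
  rw [← ENNReal.ofReal_natCast]
  exact ENNReal.ofReal_le_ofReal h1

theorem card_gridL (n ε L : ℝ) (A : ℕ) (hn : 1 ≤ n) (hε : 1 ≤ ε) (hL : 0 ≤ L)
    (hA : L / ε + 1 ≤ A) :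
    ((gridL n ε L).card : ℝ≥0∞) ≤ ENNReal.ofReal (A * (2 * n ^ (1 / 2 : ℝ))) := by
  have hs : 1 ≤ Real.sqrt n := by
    rw [Real.one_le_sqrt]; exact hn
  have h1 : ((gridL n ε L).card : ℝ) ≤ A * (2 * n ^ (1 / 2 : ℝ)) := by
    unfold gridL
    rw [Finset.card_product, Int.card_Icc, Int.card_Icc]
    have h0 : (0 : ℤ) ≤ ⌊Real.sqrt n / ε⌋ := Int.floor_nonneg.2 (by positivity)
    have h0' : (0 : ℤ) ≤ ⌊L / ε⌋ := Int.floor_nonneg.2 (by positivity)
    have h2 : (((⌊Real.sqrt n / ε⌋ + 1 - 0).toNat : ℕ) : ℝ) ≤ 2 * Real.sqrt n := by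
      have h3 : ((⌊Real.sqrt n / ε⌋ + 1 - 0).toNat : ℤ) = ⌊Real.sqrt n / ε⌋ + 1 := by
        rw [Int.toNat_of_nonneg (by omega)]; ring
      have h4 : (((⌊Real.sqrt n / ε⌋ + 1 - 0).toNat : ℕ) : ℝ) = (⌊Real.sqrt n / ε⌋ : ℝ) + 1 := by
        exact_mod_cast h3
      rw [h4]
      have h5 : (⌊Real.sqrt n / ε⌋ : ℝ) ≤ Real.sqrt n / ε := Int.floor_le _
      have h6 : Real.sqrt n / ε ≤ Real.sqrt n := div_le_self (by linarith) hε
      linarith
    have h2' : (((⌊L / ε⌋ + 1 - 0).toNat : ℕ) : ℝ) ≤ A := by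
      have h3 : ((⌊L / ε⌋ + 1 - 0).toNat : ℤ) = ⌊L / ε⌋ + 1 := by
        rw [Int.toNat_of_nonneg (by omega)]; ring
      have h4 : (((⌊L / ε⌋ + 1 - 0).toNat : ℕ) : ℝ) = (⌊L / ε⌋ : ℝ) + 1 := by
        exact_mod_cast h3
      rw [h4]
      have h5 : (⌊L / ε⌋ : ℝ) ≤ L / ε := Int.floor_le _
      linarith
    push_cast
    rw [← Real.sqrt_eq_rpow]
    gcongr
  rw [← ENNReal.ofReal_natCast]
  exact ENNReal.ofReal_le_ofReal h1

theorem tendsto_lam : Tendsto lam atTop atTop :=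
  Real.tendsto_sqrt_atTop.comp Real.tendsto_log_atTop

theorem ev_lam (e : ℝ) (he : 0 < e) : ∀ᶠ n in atTop, 1 ≤ e * lam n := by
  have h := (tendsto_lam.const_mul_atTop he)
  exact h.eventually_ge_atTop 1

theorem ev_lam_le (C : ℝ) (hC : 0 < C) : ∀ᶠ n in atTop, 8 * (C * lam n) ≤ Real.sqrt n := by
  have h1 : (fun n : ℝ => Real.log n) =o[atTop] (fun n : ℝ => n) := Real.isLittleO_log_id_atTop
  have h2 := h1.def (show (0 : ℝ) < 1 / (8 * C) ^ 2 by positivity)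
  filter_upwards [h2, eventually_ge_atTop (1 : ℝ)] with n hn hn1
  have hlog : 0 ≤ Real.log n := Real.log_nonneg hn1
  rw [Real.norm_of_nonneg hlog, Real.norm_of_nonneg (by linarith)] at hn
  have h3 : (8 * C) ^ 2 * Real.log n ≤ n := by
    have h5 : (0 : ℝ) < (8 * C) ^ 2 := by positivity
    calc (8 * C) ^ 2 * Real.log n ≤ (8 * C) ^ 2 * (1 / (8 * C) ^ 2 * n) := by gcongr
      _ = n := by field_simp
  have h4 : 8 * (C * lam n) = Real.sqrt ((8 * C) ^ 2 * Real.log n) := by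
    rw [Real.sqrt_mul (by positivity), Real.sqrt_sq (by positivity)]
    unfold lam
    ring
  rw [h4]
  exact Real.sqrt_le_sqrt h3

theorem tend_pow (c z s : ℝ) (hz : 1 < z) (h : s < c * Real.log z) :
    Tendsto (fun n : ℝ => ENNReal.ofReal (n ^ s) * ENNReal.ofReal ((1 / z) ^ (kn c n)))
      atTop (𝓝 0) := by
  have hlz : 0 < Real.log z := Real.log_pos hz
  have hz0 : 0 < z := by linarith
  have h1 : Tendsto (fun n : ℝ => z * n ^ (-(c * Real.log z - s))) atTop (𝓝 0) := by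
    have := (tendsto_rpow_neg_atTop (show 0 < c * Real.log z - s by linarith)).const_mul z
    simpa using this
  have h2 := (ENNReal.continuous_ofReal.tendsto 0).comp h1
  rw [ENNReal.ofReal_zero] at h2
  refine tendsto_of_tendsto_of_tendsto_of_le_of_le' tendsto_const_nhds h2
    (Eventually.of_forall (fun _ => zero_le)) ?_
  filter_upwards [eventually_gt_atTop (0 : ℝ)] with n hn
  have hk : c * Real.log n - 1 ≤ (kn c n : ℝ) := by
    unfold kn
    have := Nat.lt_floor_add_one (c * Real.log n)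
    linarith
  have h3 : (1 / z) ^ (kn c n) ≤ z * n ^ (-(c * Real.log z)) := by
    have e1 : (1 / z) ^ (kn c n) = Real.exp (-(Real.log z * (kn c n : ℝ))) := by
      rw [one_div, inv_pow, Real.exp_neg, ← Real.rpow_def_of_pos hz0, Real.rpow_natCast]
    have e2 : z * n ^ (-(c * Real.log z)) = Real.exp (Real.log z + Real.log n * (-(c * Real.log z))) := by
      rw [Real.exp_add, Real.exp_log hz0, ← Real.rpow_def_of_pos hn]
    rw [e1, e2]
    apply Real.exp_le_exp.2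
    nlinarith [mul_le_mul_of_nonneg_left hk hlz.le]
  rw [← ENNReal.ofReal_mul (Real.rpow_nonneg hn.le _)]
  apply ENNReal.ofReal_le_ofReal
  calc n ^ s * (1 / z) ^ (kn c n) ≤ n ^ s * (z * n ^ (-(c * Real.log z))) := by
        gcongr
    _ = z * (n ^ s * n ^ (-(c * Real.log z))) := by ring
    _ = z * n ^ (-(c * Real.log z - s)) := by
        rw [← Real.rpow_add hn]
        congr 2
        ring

theorem exp_bound (ε δ b : ℝ) (hb : 0 < b) (h : b * ε ≤ δ) (hε : 0 < ε) :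
    ε ^ 2 * Real.exp (-(ε * δ / b)) ≤ 1 := by
  have h1 : ε ^ 2 ≤ ε * δ / b := by
    rw [le_div_iff₀ hb]
    nlinarith
  have h2 : ε * δ / b + 1 ≤ Real.exp (ε * δ / b) := Real.add_one_le_exp _
  rw [Real.exp_neg, ← div_eq_mul_inv, div_le_one (Real.exp_pos _)]
  linarith

theorem tend_half (f : ℝ → ℝ≥0∞) (l : Filter ℝ) (hl : l ≤ atTop)
    (h : Tendsto (fun n => ENNReal.ofReal n * f n) l (𝓝 0)) :
    Tendsto (fun n => ENNReal.ofReal (n ^ (1 / 2 : ℝ)) * (f n) ^ (1 / 2 : ℝ)) l (𝓝 0) := by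
  have h1 : Tendsto (fun n => (ENNReal.ofReal n * f n) ^ (1 / 2 : ℝ)) l (𝓝 0) := by
    have := (ENNReal.continuous_rpow_const (y := (1 / 2 : ℝ))).tendsto 0
    rw [ENNReal.zero_rpow_of_pos (by norm_num)] at this
    exact this.comp h
  refine h1.congr' ?_
  filter_upwards [hl (eventually_ge_atTop (0 : ℝ))] with n hn
  rw [ENNReal.mul_rpow_of_nonneg _ _ (by norm_num), ENNReal.ofReal_rpow_of_nonneg hn (by norm_num)]

end H91
end KN
end
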