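import Pool.Agent.Helper91.KN.Common

open MeasureTheory Set Filter Topology
open scoped ENNReal

noncomputable section

namespace KN

open H91

theorem fin_thm (hCLI : S_CLI) (hTIN : S_TIN) (hMIN : S_MIN) (hCIN : S_CIN) (hLUNE : S_LUNE)
    (hNUM : S_NUM) (hB : S_BASIC) : S_FIN := by
  intro c a D d C hc ha hD hd hC hcf
  -- numerical constants
  obtain ⟨hl1, hl2, -⟩ := hLUNE
  obtain ⟨-, hnum, -, -, -⟩ := hNUM lune hl1 hl2
  have hlune : 0 < lune := by linarith
  set z : ℝ := 1 + 1.95 * Real.pi / lune with hz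
  have hz1 : 1 < z := by
    have : 0 < 1.95 * Real.pi / lune := by positivity
    linarith
  have hcz : 1 < c * Real.log z := by
    have : c * f0 < c * Real.log z := by
      apply mul_lt_mul_of_pos_left _ hc
      exact hnum
    linarith
  -- parameters
  set e : ℝ := a / 20000 with he
  have hepos : 0 < e := by positivity
  set N : ℕ := ⌈(D + d) / e + 10⌉₊ with hN
  have hNle : D + d + 10 * e ≤ N * e := by
    have h1 : (D + d) / e + 10 ≤ N := Nat.le_ceil _
    calc D + d + 10 * e = ((D + d) / e + 10) * e := by field_simp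
      _ ≤ N * e := by gcongr
  refine ⟨C + a + D + d + 20 * e + 3 * N * e, by positivity, ?_⟩
  intro C' hC' l hl hHyp
  have hNe : 0 ≤ N * e := by positivity
  have hC'pos : 0 < C' := by
    have : 0 < C + a + D + d + 20 * e + 3 * N * e := by positivity
    linarith
  by_cases had : a ≤ d
  swap
  · -- the event is empty
    push Not at had
    refine (tendsto_const_nhds (x := (0 : ℝ≥0∞))).congr' ?_
    filter_upwards [hl (ev_lam 1 one_pos)] with n hn
    symm
    apply PP_false
    rintro ω ⟨A, P, -, -, ⟨h1, -, a1, ha1, p1, hp1, hd1⟩, -⟩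
    have h2 := (h1 a1 ha1 p1 hp1).2
    nlinarith
  set K₁ : ℕ := 2 ^ ((2 * N + 1) ^ 2) with hK₁
  set K₂ : ℕ := (2 * N + 1) ^ 2 with hK₂
  -- the upper bound
  have hub : ∀ᶠ n in l, PP (Sq n) (BadIin (kn c n) n (a * lam n) (D * lam n) (d * lam n)
      (2 * (C' * lam n))) ≤
      ENNReal.ofReal (128 * Real.pi) * (ENNReal.ofReal n * pk (kn c n) (C * lam n)) +
      (4 * (K₁ * ((N + 1 : ℕ) : ℝ≥0∞)) * (ENNReal.ofReal n * pk (kn c n) (C * lam n)) +
       4 * (K₁ * (K₂ * (K₂ * ((N + 1 : ℕ) : ℝ≥0∞)))) *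
        (ENNReal.ofReal (n ^ (1 : ℝ)) * ENNReal.ofReal ((1 / z) ^ (kn c n)))) := by
    filter_upwards [hl (ev_lam e hepos), hl (ev_lam 1 one_pos), hl (eventually_ge_atTop (1 : ℝ)),
      hl (ev_lam a ha)] with n hn1 hn2 hn3 hn4
    have hlam : 0 < lam n := by linarith
    have hn0 : 0 < n := by linarith
    set ε : ℝ := e * lam n with hε
    have hε0 : 0 < ε := by positivity
    set k := kn c n with hk
    set Λ' : ℝ := C' * lam n with hΛ'
    have hΛ'0 : 0 < Λ' := by positivity
    have hr : 20000 * ε = a * lam n := by rw [hε, he]; ring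
    -- classification
    have hcl := fun ω hω => hCLI k n (a * lam n) (D * lam n) (d * lam n) ε Λ' N ω hn0
      (by positivity) (by gcongr) hε0 hr.le
      (by
        have : (D + d + 10 * e) * lam n ≤ (N * e) * lam n := by gcongr
        rw [hε]; linarith)
      (by
        have : (D + 2 * d + 20 * e) * lam n ≤ (2 * C') * lam n := by
          gcongr
          nlinarith
        rw [hε, hΛ']; linarith)
      (by
        rw [hΛ']
        gcongr
        nlinarith) hω
    refine le_trans (PP_mono' hB n _ _ hcl) ?_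
    refine le_trans (PP_or hB n _ _) ?_
    refine add_le_add ?_ (le_trans (PP_or hB n _ _) (add_le_add ?_ ?_))
    · -- tiny sets
      refine le_trans (hTIN k n (a * lam n) (a * lam n / 200) (C * lam n) Λ' hn0 (by positivity)
        (by positivity) (by nlinarith [mul_pos ha hlam]) (by positivity) hΛ'0 ?_) ?_
      · rw [hΛ']
        have h1 : C ^ 2 + a ^ 2 ≤ C' ^ 2 := by
          have : C + a ≤ C' := by linarith
          nlinarith
        calc (C * lam n) ^ 2 + (a * lam n) ^ 2 = (C ^ 2 + a ^ 2) * lam n ^ 2 := by ring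
          _ ≤ C' ^ 2 * lam n ^ 2 := by gcongr
          _ = _ := by ring
      · have h1 : ENNReal.ofReal (n * (128 * Real.pi / (a * lam n) ^ 2)) ≤
            ENNReal.ofReal (128 * Real.pi) * ENNReal.ofReal n := by
          rw [← ENNReal.ofReal_mul (by positivity)]
          apply ENNReal.ofReal_le_ofReal
          rw [mul_comm]
          gcongr
          apply div_le_self (by positivity)
          nlinarith
        calc _ ≤ (ENNReal.ofReal (128 * Real.pi) * ENNReal.ofReal n) * pk k (C * lam n) := by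
              gcongr
          _ = _ := by ring
    · -- medium sets
      have hB1 : ∀ c₀ ∈ gridI n ε, PP (Sq n) (fun ω => ∃ F ∈ (nb N c₀).powerset,
          ∃ j ∈ Finset.range (N + 1), 20000 ≤ j + 2 ∧
          (∀ x ∈ cellU ε F, ∀ y ∈ cellU ε F, dist x y ≤ 1.99 * (j * ε)) ∧
          EvM k (Inn n (2 * Λ') ∩ Cell ε c₀) F (cellU ε F) ε (j * ε) Λ' ω) ≤
          K₁ * (((N + 1 : ℕ) : ℝ≥0∞) * pk k (C * lam n)) := by
        intro c₀ hc₀
        refine PP_ex hB _ _ _ _ _ (card_pnb N c₀) (fun F hF => ?_)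
        refine PP_ex hB _ _ _ _ _ (by simp) (fun j hj => ?_)
        refine PP_and _ _ _ _ (fun hj2 => ?_)
        refine PP_and _ _ _ _ (fun hj3 => ?_)
        have hj4 : (19998 : ℝ) ≤ j := by
          have : 19998 ≤ j := by omega
          exact_mod_cast this
        have hj5 : (j : ℝ) ≤ N := by
          have : j ≤ N := by
            have := Finset.mem_range.1 hj
            omega
          exact_mod_cast this
        clear hj2
        refine le_trans (hMIN k n ε (j * ε) (C * lam n) Λ' c₀ F hn0 hε0 (by nlinarith) hj3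
          (by positivity) hΛ'0 ?_) ?_
        · rw [hΛ', hε]
          have h1 : C ^ 2 + 5 * (N * e) ^ 2 ≤ C' ^ 2 := by
            have : C + 3 * (N * e) ≤ C' := by linarith
            nlinarith
          calc (C * lam n) ^ 2 + 5 * (j * (e * lam n)) ^ 2 ≤
                (C * lam n) ^ 2 + 5 * (N * (e * lam n)) ^ 2 := by gcongr
            _ = (C ^ 2 + 5 * (N * e) ^ 2) * lam n ^ 2 := by ring
            _ ≤ C' ^ 2 * lam n ^ 2 := by gcongr
            _ = _ := by ring
        · have h1 : ε ^ 2 * Real.exp (-(ε * (j * ε) / 100)) ≤ 1 :=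
            exp_bound ε (j * ε) 100 (by norm_num) (by nlinarith) hε0
          calc _ ≤ ENNReal.ofReal 1 * pk k (C * lam n) := by
                gcongr
            _ = _ := by rw [ENNReal.ofReal_one, one_mul]
      refine le_trans (PP_ex hB _ _ _ _ _ le_rfl hB1) ?_
      refine le_trans (mul_le_mul_left (card_gridI n ε hn3 hn1) _) ?_
      rw [ENNReal.ofReal_mul (by norm_num)]
      apply le_of_eq
      have : ENNReal.ofReal 4 = 4 := by simp
      rw [this]
      ring
    · -- crude sets
      have hB1 : ∀ c₀ ∈ gridI n ε, PP (Sq n) (fun ω => ∃ F ∈ (nb N c₀).powerset,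
          ∃ cx ∈ nb N c₀, ∃ cz ∈ nb N c₀,
          ∃ j ∈ Finset.range (N + 1), 10000 ≤ j ∧
          (∃ p ∈ cellU ε F, ∃ q ∈ cellU ε F, 1.98 * j * ε ≤ dist p q) ∧
          ((j : ℝ) - 3) * ε ≤ dist (llc ε cx) (llc ε cz) ∧
          dist (llc ε cx) (llc ε cz) ≤ ((j : ℝ) + 4) * ε ∧
          collar (cellU ε F) (0.99 * j * ε) ⊆ Sq n ∧
          cnt (collar (cellU ε F) (0.99 * j * ε)) ω = 0 ∧
          k ≤ cnt ((Metric.ball (llc ε cx) (((j : ℝ) + 3) * ε) \
            Metric.ball (llc ε cz) (((j : ℝ) - 3) * ε)) \ collar (cellU ε F) (0.99 * j * ε)) ω) ≤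
          K₁ * (K₂ * (K₂ * (((N + 1 : ℕ) : ℝ≥0∞) * ENNReal.ofReal ((1 / z) ^ k)))) := by
        intro c₀ hc₀
        refine PP_ex hB _ _ _ _ _ (card_pnb N c₀) (fun F hF => ?_)
        refine PP_ex hB _ _ _ _ _ (card_nb N c₀) (fun cx hcx => ?_)
        refine PP_ex hB _ _ _ _ _ (card_nb N c₀) (fun cz hcz' => ?_)
        refine PP_ex hB _ _ _ _ _ (by simp) (fun j hj => ?_)
        refine PP_and _ _ _ _ (fun hj2 => ?_)
        refine PP_and _ _ _ _ (fun hj3 => ?_)
        refine PP_and _ _ _ _ (fun hj4 => ?_)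
        refine PP_and _ _ _ _ (fun hj5 => ?_)
        refine PP_and _ _ _ _ (fun hj6 => ?_)
        obtain ⟨p, hp, q, hq, hpq⟩ := hj3
        exact hCIN k n ε j F (llc ε cx) (llc ε cz) p q hn0 hε0 hj2 hp hq hpq hj4 hj5 hj6
      refine le_trans (PP_ex hB _ _ _ _ _ le_rfl hB1) ?_
      refine le_trans (mul_le_mul_left (card_gridI n ε hn3 hn1) _) ?_
      rw [ENNReal.ofReal_mul (by norm_num), Real.rpow_one]
      apply le_of_eq
      have : ENNReal.ofReal 4 = 4 := by simp
      rw [this]
      ring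
  refine tendsto_of_tendsto_of_tendsto_of_le_of_le' tendsto_const_nhds ?_
    (Eventually.of_forall (fun _ => zero_le)) hub
  have t1 := ENNReal.Tendsto.const_mul (a := ENNReal.ofReal (128 * Real.pi)) hHyp
    (Or.inr ENNReal.ofReal_ne_top)
  have t2 := ENNReal.Tendsto.const_mul (a := 4 * (K₁ * ((N + 1 : ℕ) : ℝ≥0∞))) hHyp
    (Or.inr (by
      refine ENNReal.mul_ne_top (by simp) (ENNReal.mul_ne_top (ENNReal.natCast_ne_top _)
        (ENNReal.natCast_ne_top _))))
  have t3 := ENNReal.Tendsto.const_mul (a := 4 * (K₁ * (K₂ * (K₂ * ((N + 1 : ℕ) : ℝ≥0∞)))))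
    ((tend_pow c z 1 hz1 hcz).mono_left hl)
    (Or.inr (by
      refine ENNReal.mul_ne_top (by simp) (ENNReal.mul_ne_top (ENNReal.natCast_ne_top _)
        (ENNReal.mul_ne_top (ENNReal.natCast_ne_top _) (ENNReal.mul_ne_top
          (ENNReal.natCast_ne_top _) (ENNReal.natCast_ne_top _))))))
  have := t1.add (t2.add t3)
  simpa using this

end KN
end
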